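import Pool.Agent.Work.MP_f65c66_pr.Main

open MeasureTheory Filter Topology
open Pool.Agent.Work.MP_f65c66_pr

/-- Q1 holds with `f x = 3 x - 2`.  Here `μ` is the law of a random rooted infinite tree `(T, o)`
with vertices labelled by `ℕ`, and `ν` is the law of `(T, L, o)`. -/
theorem Pool.Agent.Results.MP_f65c66_pr.DenseLines.result :
    ∃ f : ℝ → ℝ, Tendsto f (𝓝 1) (𝓝 1) ∧ (∀ x, f x = 3 * x - 2) ∧
      ∀ d : ℕ, 2 ≤ d → ∀ μ : Measure (SimpleGraph ℕ × ℕ), IsProbabilityMeasure μ →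
        (∀ᵐ p ∂μ, p.1.IsTree) → IsUnimodular μ →
        (∀ᵐ p ∂μ, (p.1.neighborSet p.2).encard ≤ (d : ℕ∞)) →
        ∃ ν : Measure (SimpleGraph ℕ × SimpleGraph ℕ × ℕ), IsProbabilityMeasure ν ∧
          ν.map (fun q => (q.1, q.2.2)) = μ ∧ (∀ᵐ q ∂ν, IsLineEnsemble q.1 q.2.1) ∧
          IsUnimodularMarked ν ∧
          f ((∫ p, ((p.1.neighborSet p.2).ncard : ℝ) ∂μ) / d) ≤
            ν.real {q | ∃ w, q.2.1.Adj q.2.2 w} := by
  refine ⟨fun x => 3 * x - 2, ?_, fun _ => rfl, fun d hd μ _ htree hμ hdeg =>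
    main d hd μ htree hμ hdeg⟩
  have h : Continuous fun x : ℝ => 3 * x - 2 := by fun_prop
  have := h.tendsto 1
  norm_num at this
  exact this
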