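import Pool.Agent.Work.MP_f65c66_pr.Hedge.Up

open MeasureTheory
open Pool.Agent.Work.MP_f65c66_pr

/-- The largest `c` such that every infinite unimodular tree with `E deg(o) ^ 2 < ∞` has an
invariant line ensemble of density at least `c (E deg(o) - 2)₊ ^ 2 / E deg(o) ^ 2` is `1 / 2`.
Here `μ` is the law of `(T, o)` with vertices labelled by `ℕ`, and `ν` is the law of `(T, L, o)`. -/
theorem Pool.Agent.Results.MP_f65c66_pr.SharpMoment.result :
    IsGreatest {c : ℝ | ∀ μ : Measure (SimpleGraph ℕ × ℕ), IsProbabilityMeasure μ →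
      (∀ᵐ p ∂μ, p.1.IsTree) → IsUnimodular μ → (∀ᵐ p ∂μ, (p.1.neighborSet p.2).Finite) →
      Integrable (fun p => ((p.1.neighborSet p.2).ncard : ℝ) ^ 2) μ →
      ∃ ν : Measure (SimpleGraph ℕ × SimpleGraph ℕ × ℕ), IsProbabilityMeasure ν ∧
        ν.map (fun q => (q.1, q.2.2)) = μ ∧ (∀ᵐ q ∂ν, IsLineEnsemble q.1 q.2.1) ∧
        IsUnimodularMarked ν ∧
        c * (max ((∫ p, ((p.1.neighborSet p.2).ncard : ℝ) ∂μ) - 2) 0 ^ 2 /
          ∫ p, ((p.1.neighborSet p.2).ncard : ℝ) ^ 2 ∂μ) ≤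
          ν.real {q | ∃ w, q.2.1.Adj q.2.2 w}} (1 / 2) :=
  ⟨fun μ _ => low μ, fun _ hc => up hc⟩
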